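import Pool.Agent.Helper75.PZ.Stmts

set_option autoImplicit false

universe u

namespace Pool.Agent.Helper17.PZ

open Pool.Agent.Helper75.PZ

theorem st_TD : ST_TD.{u} := by
  intro F K _ _ _ L x₁ x₂ x₃ h₁ h₂ h₃ h
  have hy : AlgebraicIndependent F ![(⟨x₁, h₁⟩ : L), (⟨x₂, h₂⟩ : L), (⟨x₃, h₃⟩ : L)] := by
    apply AlgebraicIndependent.of_comp L.val
    have e : (L.val : L → K) ∘ ![(⟨x₁, h₁⟩ : L), (⟨x₂, h₂⟩ : L), (⟨x₃, h₃⟩ : L)] =
        ![x₁, x₂, x₃] := by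
      funext i
      fin_cases i <;> rfl
    rw [e]
    exact h
  have h4 := hy.lift_cardinalMk_le_trdeg
  simpa using h4

end Pool.Agent.Helper17.PZ
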